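import Pool.Agent.H681R2.GA.Main

/-!
# P-optimal proof systems and generic oracles

For comeager many oracles `X` the p-simulation order of the ordinary proof systems embeds, as a
cofinal suborder, into the p-simulation order of the proof systems for the tautologies of
propositional logic relative to `X`.  In particular a p-optimal proof system exists if and only if
one exists relative to `X`.

Ideas of the proof.  A relativised tautology `φ` is true relative to all oracles that agree with
some finite table `ρ`, and then the ordinary formula `hat ρ φ`, in which the oracle atoms become new
variables and which has the consistency of their values as hypotheses, is a tautology.  The relative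
system `E f` has as proofs the triples of a table `ρ` contained in `X`, an `f`-proof of `hat ρ φ`,
and `φ`.  For cofinality: if a relative system `F` is sound relative to a generic oracle then it is
sound relative to all extensions of a finite table `σ`, and then the formulas `hat (σ ++ τ) φ`,
where `φ = F w` and `τ` is the table of the oracle answers used in the computation of `F w`, are
tautologies, and `w`, `τ` can be used as proofs of them in an ordinary proof system.  For the
reflection of simulations one replaces the generic oracle by a finite table.
-/

set_option autoImplicit false

namespace Pool.Agent.Results.MP_f0c157_lc.GenericAbsolute

open Pool.Agent.H681R2.GA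

/-- For comeager many oracles `X` there is a map `E` from ordinary proof systems to proof systems
relative to `X` which preserves and reflects p-simulation, and such that every proof system relative
to `X` is p-simulated by some `E f`; moreover a p-optimal proof system exists if and only if one
exists relative to `X`. -/
theorem result : ∀ᶠ X in residual (List Bool → Bool),
    (∃ E : (List Bool → List Bool) → (List Bool → List Bool),
      (∀ f, IsPS f → IsPSRel X (E f)) ∧
      (∀ f g, IsPS f → IsPS g → (PSimRel X (E f) (E g) ↔ PSim f g)) ∧
      (∀ F, IsPSRel X F → ∃ f, IsPS f ∧ PSimRel X (E f) F)) ∧
    ((∃ f, POptimal f) ↔ ∃ F, POptimalRel X F) := by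
  filter_upwards [main] with X hX
  obtain ⟨⟨E, h1, h2, _, h4⟩, h5, _⟩ := hX
  exact ⟨⟨E, h1, h2, h4⟩, h5⟩

end Pool.Agent.Results.MP_f0c157_lc.GenericAbsolute
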